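import Mathlib

/-!
# Characters of finite commutative groups with prescribed values
-/

namespace Pool.Agent.D0H5.Fermat

section Group

variable {G : Type} [CommGroup G] [Finite G]

/-- a character with a prescribed value at one element -/
lemma exists_char (g : G) (ζ : ℂˣ) (h : ζ ^ orderOf g = 1) : ∃ χ : G →* ℂˣ, χ g = ζ := by
  classical
  set H := Subgroup.zpowers g with hH
  set g' : H := ⟨g, Subgroup.mem_zpowers g⟩ with hg'
  have hgen : ∀ x : H, x ∈ Subgroup.zpowers g' := by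
    rintro ⟨x, hx⟩
    obtain ⟨k, hk⟩ := Subgroup.mem_zpowers_iff.mp hx
    refine Subgroup.mem_zpowers_iff.mpr ⟨k, ?_⟩
    apply Subtype.ext
    simpa using hk
  have hord : orderOf ζ ∣ orderOf g' := by
    have h1 : orderOf g' = orderOf g := Subgroup.orderOf_mk g (Subgroup.mem_zpowers g)
    rw [h1]
    exact orderOf_dvd_of_pow_eq_one h
  set ψ : H →* ℂˣ := monoidHomOfForallMemZpowers hgen hord with hψ
  have hψg : ψ g' = ζ := monoidHomOfForallMemZpowers_apply_gen hgen hord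
  have hne : NeZero (Monoid.exponent G) := ⟨Monoid.exponent_ne_zero_of_finite⟩
  have hneC : NeZero ((Monoid.exponent G : ℕ) : ℂ) := ⟨by exact_mod_cast hne.out⟩
  obtain ⟨χ, hχ⟩ := MonoidHom.domRestrict_surjective (M := ℂ) H ψ
  refine ⟨χ, ?_⟩
  have h1 : (MonoidHom.domRestrictHom H ℂˣ χ) g' = ψ g' := by rw [hχ]
  rw [hψg] at h1
  exact h1

/-- a character with a prescribed value of two-power order at one element, trivial on the elements
of odd order -/
lemma exists_char_two (g : G) {e : ℕ} (he : 2 ^ e ∣ orderOf g) (ζ : ℂˣ) (h : ζ ^ 2 ^ e = 1) :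
    ∃ χ : G →* ℂˣ, χ g = ζ ∧ ∀ x, Odd (orderOf x) → χ x = 1 := by
  classical
  obtain ⟨v, o, ho, hvo⟩ := Nat.exists_eq_two_pow_mul_odd (Nat.card_pos (α := G)).ne'
  have hc : IsCoprime ((2 ^ e : ℕ) : ℤ) (o : ℤ) := by
    rw [Nat.isCoprime_iff_coprime]
    exact Nat.Coprime.pow_left _ (Nat.coprime_two_left.mpr ho)
  obtain ⟨u, w, huw⟩ := hc
  have hζ : (ζ ^ w) ^ o = ζ := by
    have h1 : ζ ^ (u * ((2 ^ e : ℕ) : ℤ) + w * (o : ℤ)) = ζ := by rw [huw, zpow_one]
    rw [zpow_add, mul_comm u, zpow_mul, zpow_natCast, h, one_zpow, one_mul, zpow_mul,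
      zpow_natCast] at h1
    exact h1
  have hord : (ζ ^ w) ^ orderOf g = 1 := by
    obtain ⟨c, hc⟩ := he
    have h1 : ζ ^ orderOf g = 1 := by rw [hc, pow_mul, h, one_pow]
    rw [← zpow_natCast, ← zpow_mul, mul_comm, zpow_mul, zpow_natCast, h1, one_zpow]
  obtain ⟨ψ, hψ⟩ := exists_char g (ζ ^ w) hord
  refine ⟨ψ ^ o, ?_, ?_⟩
  · rw [MonoidHom.pow_apply, hψ, hζ]
  · intro x hx
    have h1 : orderOf x ∣ 2 ^ v * o := hvo ▸ orderOf_dvd_natCard x
    have h2 : orderOf x ∣ o :=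
      (Nat.Coprime.pow_right _ (Nat.coprime_two_right.mpr hx)).dvd_of_dvd_mul_left h1
    rw [MonoidHom.pow_apply, ← map_pow, orderOf_dvd_iff_pow_eq_one.mp h2, map_one]

end Group

lemma pow_neg_one {ζ : ℂ} : ∀ {e : ℕ}, ζ ^ 2 ^ e = 1 → ζ ≠ 1 → ∃ k : ℕ, ζ ^ k = -1 := by
  intro e
  induction e with
  | zero => intro h h'; rw [pow_zero, pow_one] at h; exact absurd h h'
  | succ e ih =>
    intro h h'
    rw [pow_succ, pow_mul] at h
    rcases mul_self_eq_one_iff.mp ((sq _).symm.trans h) with h1 | h1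
    · exact ih h1 h'
    · exact ⟨_, h1⟩

variable {q : ℕ} [Fact q.Prime]

/-- the values of a character of even order, trivial on the elements of odd order, at `p` and `-1` -/
def Real (p : ℕ) (q : ℕ) (ζ η : ℂ) : Prop :=
  ∃ χ : MulChar (ZMod q) ℂ, Even (orderOf χ) ∧ χ (p : ZMod q) = ζ ∧ χ (-1) = η ∧
    ∀ x : (ZMod q)ˣ, Odd (orderOf x) → χ x = 1

lemma even_order {χ : MulChar (ZMod q) ℂ} {x : (ZMod q)ˣ} (hx : χ x = -1) : Even (orderOf χ) := by
  have h3 := congrArg (fun ψ : MulChar (ZMod q) ℂ => ψ x) (pow_orderOf_eq_one χ)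
  simp only [MulChar.pow_apply_coe, MulChar.one_apply_coe, hx] at h3
  by_contra hodd
  rw [Nat.not_even_iff_odd] at hodd
  rw [hodd.neg_one_pow] at h3
  norm_num at h3

/-- in a field an element whose order is twice a number raised to that number is `-1` -/
lemma pow_half {x : (ZMod q)ˣ} {n : ℕ} (hn : 0 < n) (h : orderOf x = 2 * n) : x ^ n = -1 := by
  have h1 : (x ^ n) ^ 2 = 1 := by rw [← pow_mul, mul_comm, ← h, pow_orderOf_eq_one]
  have h2 : x ^ n ≠ 1 := by
    intro h2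
    have h3 := Nat.le_of_dvd hn (orderOf_dvd_of_pow_eq_one h2)
    omega
  have h4 : ((x ^ n : (ZMod q)ˣ) : ZMod q) ^ 2 = 1 := by
    rw [← Units.val_pow_eq_pow_val, h1, Units.val_one]
  rcases mul_self_eq_one_iff.mp ((sq _).symm.trans h4) with h5 | h5
  · exact absurd (Units.ext h5) h2
  · exact Units.ext h5

lemma real_root {p e f : ℕ} {u : (ZMod q)ˣ} (hu : (u : ZMod q) = p) (hf : Odd f)
    (hord : orderOf u = 2 ^ (e + 1) * f) {ζ : ℂ} (h : ζ ^ 2 ^ (e + 1) = 1) (h1 : ζ ≠ 1) :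
    Real p q ζ (ζ ^ 2 ^ e) := by
  have hζ0 : ζ ≠ 0 := by
    rintro rfl
    rw [zero_pow (by positivity)] at h
    exact zero_ne_one h
  obtain ⟨χ, hχ, hχo⟩ := exists_char_two u (e := e + 1) (Dvd.intro _ hord.symm) (Units.mk0 ζ hζ0)
    (Units.ext (by simpa using h))
  have hval : ∀ x : (ZMod q)ˣ, MulChar.ofUnitHom χ (x : ZMod q) = ((χ x : ℂˣ) : ℂ) := fun x =>
    MulChar.ofUnitHom_coe χ x
  have hp : MulChar.ofUnitHom χ (p : ZMod q) = ζ := by
    rw [← hu, hval, hχ]; rfl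
  obtain ⟨k, hk⟩ := pow_neg_one h h1
  refine ⟨MulChar.ofUnitHom χ, ?_, hp, ?_, ?_⟩
  · apply even_order (x := u ^ k)
    rw [Units.val_pow_eq_pow_val, map_pow, hu, hp, hk]
  · have h2 : u ^ (2 ^ e * f) = -1 := pow_half (Nat.mul_pos (by positivity) hf.pos)
      (by rw [hord, pow_succ]; ring)
    have h3 : (-1 : ZMod q) = (p : ZMod q) ^ (2 ^ e * f) := by
      rw [← hu, ← Units.val_pow_eq_pow_val, h2]; simp
    rw [h3, map_pow, hp, pow_mul]
    have h4 : (ζ ^ 2 ^ e) ^ 2 = 1 := by rw [← pow_mul, ← pow_succ]; exact h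
    obtain ⟨t, rfl⟩ := hf
    rw [pow_succ, pow_mul, h4, one_pow, one_mul]
  · intro x hx
    rw [hval, hχo x hx, Units.val_one]

/-- the quadratic character -/
noncomputable def qc (p q : ℕ) [Fact q.Prime] : ℂ := ((quadraticChar (ZMod q) (p : ZMod q) : ℤ) : ℂ)

lemma real_leg {p : ℕ} (hq : q % 4 = 1) : Real p q (qc p q) 1 := by
  have hq2 : ringChar (ZMod q) ≠ 2 := by
    rw [ZMod.ringChar_zmod_n]; omega
  set χ : MulChar (ZMod q) ℂ := (quadraticChar (ZMod q)).ringHomComp (Int.castRingHom ℂ) with hχ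
  have hval : ∀ x : ZMod q, χ x = ((quadraticChar (ZMod q) x : ℤ) : ℂ) := fun x => rfl
  refine ⟨χ, ?_, hval _, ?_, ?_⟩
  · obtain ⟨a, ha⟩ := quadraticChar_exists_neg_one' hq2
    apply even_order (x := a)
    rw [hval, ha]; norm_num
  · rw [hval, quadraticChar_neg_one hq2]
    have h1 : ZMod.χ₄ (Fintype.card (ZMod q)) = 1 := by
      rw [ZMod.card]
      exact ZMod.χ₄_nat_one_mod_four hq
    rw [h1]; norm_num
  · intro x hx
    rw [hval]
    have h1 : (quadraticChar (ZMod q) (x : ZMod q)) ^ orderOf x = 1 := by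
      rw [← map_pow, ← Units.val_pow_eq_pow_val, pow_orderOf_eq_one, Units.val_one, map_one]
    rcases quadraticChar_dichotomy (Units.ne_zero x) with h2 | h2
    · rw [h2]; norm_num
    · rw [h2, hx.neg_one_pow] at h1
      norm_num at h1

end Pool.Agent.D0H5.Fermat
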