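import Pool.Agent.TH540.MainH

/-!
# Parities of supports from products of characters of even order
-/

set_option linter.unusedSectionVars false

namespace Pool.Agent.D0H5.Fermat

open Finset Pool.Agent.H916R2 Pool.Agent.H916T Pool.Agent.H916U Pool.Agent.H916Z Pool.Agent.H916Q
  Pool.Agent.H916Y Pool.Agent.TH540

/-- a sign -/
noncomputable def sC (z : ℂ) : ℤ := if 0 < z.re ∨ (z.re = 0 ∧ 0 < z.im) then 1 else -1

lemma sC_neg {z : ℂ} (hz : z ≠ 0) : sC (-z) = - sC z := by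
  unfold sC
  have h0 : z.re ≠ 0 ∨ z.im ≠ 0 := by
    by_contra h
    push Not at h
    exact hz (Complex.ext h.1 h.2)
  simp only [Complex.neg_re, Complex.neg_im]
  by_cases h1 : 0 < z.re ∨ (z.re = 0 ∧ 0 < z.im)
  · rw [if_pos h1, if_neg]
    rintro (h | ⟨h, h'⟩)
    · rcases h1 with h1 | ⟨h1, h2⟩
      · linarith
      · linarith
    · rcases h1 with h1 | ⟨h1, h2⟩
      · linarith
      · linarith
  · rw [if_neg h1, if_pos]
    · ring
    · push Not at h1
      rcases lt_trichotomy z.re 0 with h | h | h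
      · left; linarith
      · right
        refine ⟨by linarith, ?_⟩
        have h2 := h1.2 h
        rcases h0 with h3 | h3
        · exact absurd h h3
        · have : z.im < 0 := lt_of_le_of_ne h2 h3
          linarith
      · exact absurd h (not_lt.mpr h1.1)

lemma sC_par (z : ℂ) : ¬ 2 ∣ sC z := by
  unfold sC
  split_ifs <;> decide

variable {m : ℕ}

/-- the product of the characters -/
def pc (Q0 : Finset (PF m)) (χ : ∀ i : PF m, GG m i →* ℂˣ) (x : ∀ i, GG m i) : ℂˣ :=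
  ∏ i ∈ Q0, χ i (x i)

lemma pc_mul (Q0 : Finset (PF m)) (χ : ∀ i : PF m, GG m i →* ℂˣ) (x y : ∀ i, GG m i) :
    pc Q0 χ (x * y) = pc Q0 χ x * pc Q0 χ y := by
  unfold pc
  rw [← prod_mul_distrib]
  exact prod_congr rfl fun i _ => by rw [Pi.mul_apply, map_mul]

lemma pc_inv (Q0 : Finset (PF m)) (χ : ∀ i : PF m, GG m i →* ℂˣ) (x : ∀ i, GG m i) :
    pc Q0 χ x⁻¹ = (pc Q0 χ x)⁻¹ := by
  unfold pc
  rw [← Finset.prod_inv_distrib]
  exact prod_congr rfl fun i _ => by rw [Pi.inv_apply, map_inv]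

/-- the sign of the product of the characters -/
noncomputable def oc (Q0 : Finset (PF m)) (χ : ∀ i : PF m, GG m i →* ℂˣ) (x : ∀ i, GG m i) : ℤ :=
  sC (pc Q0 χ x : ℂˣ)

lemma oc_mul_one {Q0 : Finset (PF m)} {χ : ∀ i : PF m, GG m i →* ℂˣ} {x : ∀ i, GG m i}
    (hx : pc Q0 χ x = 1) (y : ∀ i, GG m i) : oc Q0 χ (x * y) = oc Q0 χ y := by
  unfold oc
  rw [pc_mul, hx, one_mul]

lemma oc_mul_neg {Q0 : Finset (PF m)} {χ : ∀ i : PF m, GG m i →* ℂˣ} {x : ∀ i, GG m i}
    (hx : pc Q0 χ x = -1) (y : ∀ i, GG m i) : oc Q0 χ (x * y) = - oc Q0 χ y := by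
  unfold oc
  rw [pc_mul, hx, neg_one_mul, Units.val_neg]
  exact sC_neg (Units.ne_zero _)

lemma pc_single {Q0 : Finset (PF m)} {χ : ∀ i : PF m, GG m i →* ℂˣ} {i : PF m} (hi : i ∈ Q0)
    (y : GG m i) : pc Q0 χ (Pi.mulSingle i y) = χ i y := by
  classical
  unfold pc
  rw [← mul_prod_erase Q0 _ hi, Pi.mulSingle_eq_same, prod_eq_one, mul_one]
  intro j hj
  rw [Pi.mulSingle_eq_of_ne (ne_of_mem_erase hj), map_one]

lemma pc_single_not {Q0 : Finset (PF m)} {χ : ∀ i : PF m, GG m i →* ℂˣ} {i : PF m} (hi : i ∉ Q0)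
    (y : GG m i) : pc Q0 χ (Pi.mulSingle i y) = 1 := by
  classical
  unfold pc
  refine prod_eq_one fun j hj => ?_
  have : j ≠ i := fun h => hi (h ▸ hj)
  rw [Pi.mulSingle_eq_of_ne this, map_one]

lemma oc_nn {Q0 : Finset (PF m)} {χ : ∀ i : PF m, GG m i →* ℂˣ} {i : PF m} (hi : i ∈ Q0)
    {y0 : GG m i} (hy : χ i y0 = -1) (x : ∀ i, GG m i) : NN i (oc Q0 χ) x = 0 := by
  classical
  unfold NN
  have h1 : ∑ y : GG m i, oc Q0 χ (Pi.mulSingle i y * x) =
      ∑ y : GG m i, oc Q0 χ (Pi.mulSingle i (y0 * y) * x) :=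
    (Fintype.sum_equiv (Equiv.mulLeft y0) _ _ fun y => rfl).symm
  have h2 : ∀ y : GG m i, oc Q0 χ (Pi.mulSingle i (y0 * y) * x) =
      - oc Q0 χ (Pi.mulSingle i y * x) := by
    intro y
    have h3 : (Pi.mulSingle i (y0 * y) : ∀ i, GG m i) =
        Pi.mulSingle i y0 * Pi.mulSingle i y := Pi.mulSingle_mul i y0 y
    rw [h3, mul_assoc]
    exact oc_mul_neg (by rw [pc_single hi, hy]) _
  rw [sum_congr rfl fun y _ => h2 y, sum_neg_distrib] at h1
  omega

/-- **Evenness from a product of characters.** -/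
theorem even_chi [NeZero m] {p : ℕ} (hp : p.Coprime m) {s : Multiset (ZMod m)} (hs : Rel0 p s)
    {S : Finset ℕ} (hS : S ⊆ m.primeFactors) (h2 : 2 ∉ S) (hne : S.Nonempty)
    (χ : ∀ i : PF m, GG m i →* ℂˣ)
    (hev : ∀ i : PF m, (i : ℕ) ∈ S → ∃ y, χ i y = -1)
    (hneg : pc (FS m S) χ (sg m) = -1) (hp1 : pc (FS m S) χ (vec m p) = 1)
    (hj : ∀ j : PF m, (j : ℕ) ∉ S → pc (FS m S) χ (vec m (j : ℕ)) = 1) :
    Even (s.countP (Supp S)) := by
  classical
  have hG : Gen m (FS m S) ∅ (oc (FS m S) χ) := by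
    refine ⟨by simp, by simp, ?_, ?_, ?_, ?_, ?_, by simp, fun x => sC_par _⟩
    · obtain ⟨q, hq⟩ := hne
      exact ⟨⟨q, hS hq⟩, mem_FS.mpr hq⟩
    · intro k hk y x
      exact oc_mul_one (pc_single_not hk y) x
    · intro x
      exact oc_mul_neg hneg x
    · intro i hi x
      obtain ⟨y0, hy⟩ := hev i (mem_FS.mp hi)
      exact oc_nn hi hy x
    · intro j hjS _ x
      refine oc_mul_one ?_ x
      unfold tt
      rw [pc_inv, hj j (fun h => hjS (mem_FS.mpr h)), inv_one]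
  have h1 := even_count hp hs hG (fun i hi h => h2 (h ▸ mem_FS.mp hi))
    (fun x => oc_mul_one hp1 x)
  have h3 : s.countP (Supp S) = s.countP fun a => FS m S ⊆ H916Q.TT m (addOrderOf a) ∧
      H916Q.TT m (addOrderOf a) ⊆ FS m S ∪ ∅ := by
    apply Multiset.countP_congr rfl
    intro a _
    rw [← TT_eq_iff hS, union_empty]
    simp only [eq_iff_iff]
    constructor
    · intro h
      rw [h]
      exact ⟨Subset.refl _, Subset.refl _⟩
    · rintro ⟨h, h'⟩
      exact Subset.antisymm h' h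
  rw [h3]
  exact h1

/-- The number `n` is even for characters: there are characters modulo the prime divisors of `n`, all
of even order, whose product is `-1` at `-1` and `1` at `p` and at the prime divisors of `m` not
dividing `n` (two is disregarded if four does not divide `m`). -/
def CharEven (p m n : ℕ) : Prop :=
  ∃ χ : (q : ℕ) → MulChar (ZMod q) ℂ,
    (∀ q ∈ n.primeFactors, Even (orderOf (χ q))) ∧
    ∏ q ∈ n.primeFactors, χ q (-1) = -1 ∧
    ∏ q ∈ n.primeFactors, χ q (p : ZMod q) = 1 ∧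
    ∀ j : ℕ, j.Prime → j ∣ m → ¬ j ∣ n → (j = 2 → 4 ∣ m) →
      ∏ q ∈ n.primeFactors, χ q (j : ZMod q) = 1

lemma prod_FS' {S : Finset ℕ} (hS : S ⊆ m.primeFactors) (f : ℕ → ℂ) :
    ∏ i ∈ FS m S, f (i : ℕ) = ∏ q ∈ S, f q := by
  refine Finset.prod_bij (fun i _ => (i : ℕ)) ?_ ?_ ?_ ?_
  · intro i hi; exact mem_FS.mp hi
  · intro i _ j _ h; exact Subtype.ext h
  · intro q hq; exact ⟨⟨q, hS hq⟩, mem_FS.mpr hq, rfl⟩
  · intro i _; rfl

/-- a character of even order takes the value `-1` -/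
lemma exists_neg_one {q : ℕ} [Fact q.Prime] (χ : MulChar (ZMod q) ℂ) (h : Even (orderOf χ)) :
    ∃ y : (ZMod q)ˣ, χ.toUnitHom y = -1 := by
  obtain ⟨k, hk⟩ := h
  have hpos : 0 < orderOf χ := orderOf_pos χ
  have h1 : χ ^ k ≠ 1 := by
    intro h1
    have h2 := orderOf_dvd_of_pow_eq_one h1
    have h3 := Nat.le_of_dvd (by omega) h2
    omega
  obtain ⟨y, hy⟩ := MulChar.ne_one_iff.mp h1
  have h2 : (χ y) ^ (orderOf χ) = 1 := by
    have h3 := congrArg (fun ψ : MulChar (ZMod q) ℂ => ψ y) (pow_orderOf_eq_one χ)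
    simp only [MulChar.pow_apply_coe, MulChar.one_apply_coe] at h3
    exact h3
  have h4 : (χ y) ^ k = -1 := by
    have h5 : ((χ y) ^ k) ^ 2 = 1 := by
      rw [← pow_mul, mul_two, ← hk]; exact h2
    rcases mul_self_eq_one_iff.mp ((sq _).symm.trans h5) with h6 | h6
    · rw [MulChar.pow_apply_coe] at hy
      exact absurd h6 hy
    · exact h6
  refine ⟨y ^ k, ?_⟩
  apply Units.ext
  rw [map_pow, Units.val_pow_eq_pow_val, MulChar.coe_toUnitHom, h4]
  simp

end Pool.Agent.D0H5.Fermat
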