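import Pool.Agent.D0H5.Fermat.Chi

/-!
# The criterion
-/

set_option linter.unusedSectionVars false

namespace Pool.Agent.D0H5.Fermat

open Finset Pool.Agent.H916R2 Pool.Agent.H916T Pool.Agent.H916U Pool.Agent.H916Z Pool.Agent.H916Q
  Pool.Agent.H916Y Pool.Agent.TH540

variable {m p : ℕ}

lemma pc_val {S : Finset ℕ} (hS : S ⊆ m.primeFactors) (χ : (q : ℕ) → MulChar (ZMod q) ℂ)
    (x : ∀ i, GG m i) (f : (q : ℕ) → ZMod q) (hx : ∀ i ∈ FS m S, (x i : ZMod (i : ℕ)) = f i) :
    ((pc (FS m S) (fun i => (χ i).toUnitHom) x : ℂˣ) : ℂ) = ∏ q ∈ S, χ q (f q) := by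
  unfold pc
  rw [Units.coe_prod, ← prod_FS' hS (fun q => χ q (f q))]
  refine prod_congr rfl fun i hi => ?_
  rw [MulChar.coe_toUnitHom, hx i hi]

theorem even_char (hm : 0 < m) (hpm : p.Coprime m) {s : Multiset (ZMod m)} (hs : Rel0 p s)
    {S : Finset ℕ} (hne : S.Nonempty) (h2 : 2 ∉ S) (hSm : S ⊆ m.primeFactors)
    (hR : CharEven p m (∏ q ∈ S, q)) : Even (s.countP (Supp S)) := by
  have hz : NeZero m := ⟨hm.ne'⟩
  obtain ⟨χ, hev, hneg, hp1, hj⟩ := hR
  have hpr : ∀ q ∈ S, q.Prime := fun q hq => Nat.prime_of_mem_primeFactors (hSm hq)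
  have hpf : (∏ q ∈ S, q).primeFactors = S := Nat.primeFactors_prod hpr
  rw [hpf] at hev hneg hp1 hj
  have hdvd : ∀ j : ℕ, j.Prime → j ∣ ∏ q ∈ S, q → j ∈ S := by
    intro j hjp h
    obtain ⟨q, hq, hjq⟩ := (hjp.prime.dvd_finsetProd_iff _).mp h
    rwa [(Nat.prime_dvd_prime_iff_eq hjp (hpr q hq)).mp hjq]
  have main : ∀ n : ℕ, 0 < n → n ∣ m → (2 ∣ n → 4 ∣ m) → S ⊆ n.primeFactors →
      ∀ x' : Multiset (ZMod n), Rel0 p x' → Even (x'.countP (Supp S)) := by
    intro n hn hnm h24 hSn x' hx'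
    have hzn : NeZero n := ⟨hn.ne'⟩
    have hpn := Nat.Coprime.coprime_dvd_right hnm hpm
    refine even_chi hpn hx' hSn h2 hne (fun i => (χ i).toUnitHom) ?_ ?_ ?_ ?_
    · intro i hi
      exact exists_neg_one _ (hev _ hi)
    · apply Units.ext
      rw [pc_val hSn χ (sg n) (fun q => (-1 : ZMod q)) (fun i _ => by simp [sg]), hneg]
      simp
    · apply Units.ext
      rw [pc_val hSn χ (vec n p) (fun q => (p : ZMod q)) (fun i _ => vec_val fun h =>
        not_dvd_of_coprime (Fact.out : (i : ℕ).Prime) hpn (Nat.dvd_of_mem_primeFactors i.2) h), hp1]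
      simp
    · intro j hjS
      have hjp : (j : ℕ).Prime := Fact.out
      have hjn : (j : ℕ) ∣ n := Nat.dvd_of_mem_primeFactors j.2
      apply Units.ext
      rw [pc_val hSn χ (vec n (j : ℕ)) (fun q => ((j : ℕ) : ZMod q)) (fun i hi => vec_val fun h => ?_),
        hj j hjp (hjn.trans hnm) (fun h => hjS (hdvd j hjp h)) (fun h => h24 (h ▸ hjn))]
      · simp
      · have hip : (i : ℕ).Prime := Fact.out
        have h3 : i = j := Subtype.ext ((Nat.prime_dvd_prime_iff_eq hip hjp).mp h)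
        exact hjS (h3 ▸ mem_FS.mp hi)
  by_cases h4m : 4 ∣ m
  · exact main m hm (dvd_refl m) (fun _ => h4m) hSm s hs
  · refine H916Y.even_odd_level hm h4m hpm hs h2 ?_
    intro n hn hn2 hnm hr x' hx'
    refine main n hn hnm (fun h => absurd h hn2) ?_ x' hx'
    intro q hq
    exact Nat.mem_primeFactors.mpr ⟨hpr q hq, hr q (hpr q hq) (fun h => h2 (h ▸ hq))
      (Nat.dvd_of_mem_primeFactors (hSm hq)), hn.ne'⟩

/-- **The criterion.** -/
theorem main_char (hp : p.Prime) (hm : 0 < m) (hpm : p.Coprime m)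
    (H : ∀ n : ℕ, Squarefree n → Odd n → 1 < n → n ∣ m →
      (∃ k : ℕ, (p : ZMod n) ^ k = -1) ∨ CharEven p m n)
    {s : Multiset (ZMod m)} (hs : IsTate p m s) (hne : s ≠ 0) :
    ∃ N : ℕ, 0 < N ∧ p.Coprime N ∧ ∀ M : ℕ, N * m = M →
      H916T.Generated M (ZBase p M) (s.map (iota N : ZMod m → ZMod M)) := by
  classical
  have hz : NeZero m := ⟨hm.ne'⟩
  have hrel : Rel0 p s := fun t => hs.W_sum hpm t
  refine parity_fix (k := 1) (M := m) hp hm one_pos (one_mul m) hpm hs hne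
    (fun S => S.Nonempty ∧ 2 ∉ S ∧ S ⊆ m.primeFactors ∧ CharEven p m (∏ q ∈ S, q))
    (fun S hS => even_char hm hpm hrel hS.1 hS.2.1 hS.2.2.1 hS.2.2.2) ?_
  intro a ha0 ham hE
  by_cases h2 : 2 ∣ addOrderOf a
  · obtain ⟨d, hd⟩ := h2.trans (addOrderOf_dvd_level a)
    exact fix_null (null_even hd.symm ha0 h2)
  · set S := (addOrderOf a).primeFactors with hS
    have hpos := addOrderOf_pos a
    have hne' : S.Nonempty := by
      rw [Finset.nonempty_iff_ne_empty]
      intro h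
      rw [hS, Nat.primeFactors_eq_empty] at h
      rcases h with h | h
      · exact hpos.ne' h
      · rw [AddMonoid.addOrderOf_eq_one_iff] at h
        exact ha0 h
    have hprime : ∀ q ∈ S, q.Prime := fun q hq => Nat.prime_of_mem_primeFactors hq
    have h2S : 2 ∉ S := fun h => h2 (Nat.dvd_of_mem_primeFactors h)
    have hSm : S ⊆ m.primeFactors := Nat.primeFactors_mono ham hm.ne'
    set n := ∏ q ∈ S, q with hn
    have hna : n ∣ addOrderOf a := Nat.prod_primeFactors_dvd _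
    have hnm : n ∣ m := hna.trans ham
    have hsq : Squarefree n := by
      rw [hn]
      exact Finset.squarefree_prod_of_pairwise_isCoprime (fun q hq r hr hqr => by
        show IsRelPrime q r
        rw [← Nat.coprime_iff_isRelPrime]
        exact (Nat.coprime_primes (hprime q hq) (hprime r hr)).mpr hqr)
        (fun q hq => (hprime q hq).squarefree)
    have hn2 : ¬ 2 ∣ n := fun h => h2 (h.trans hna)
    have hodd : Odd n := Nat.odd_iff.mpr (by omega)
    have hn1 : 1 < n := by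
      obtain ⟨q, hq⟩ := hne'
      have h1 : q ∣ n := Finset.dvd_prod_of_mem _ hq
      have h3 := (hprime q hq).one_lt
      have h4 := Nat.le_of_dvd (Nat.pos_of_ne_zero (by rintro h; rw [h] at hn2; exact hn2 (dvd_zero 2))) h1
      omega
    rcases H n hsq hodd hn1 hnm with ⟨k, h⟩ | h
    · have hxo := order_elem (M := m) hnm
      have hx0 := ne_zero_of_order hxo hn1.ne'
      refine fix_link (el_supp ha0 hx0 ?_) (fix_null (fix_neg_one (k := k) hxo hn1.ne' h))
      rw [hxo, hn, Nat.primeFactors_prod hprime]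
    · exact absurd ⟨hne', h2S, hSm, h⟩ hE

end Pool.Agent.D0H5.Fermat
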