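import Pool.Agent.D0H5.Fermat.Select
import Pool.Agent.D0H5.Fermat.Crit

/-!
# Explicit degrees
-/

set_option linter.unusedSectionVars false

namespace Pool.Agent.D0H5.Fermat

open Finset

variable {p q : ℕ}

/-- the exponent of two in the order of `p` modulo `q` -/
noncomputable def ev (p q : ℕ) : ℕ := (orderOf (p : ZMod q)).factorization 2

/-- the odd part of the order of `p` modulo `q` -/
noncomputable def of (p q : ℕ) : ℕ := ordCompl[2] (orderOf (p : ZMod q))

lemma unit_of (hq : q.Prime) (hpq : ¬ q ∣ p) : ∃ u : (ZMod q)ˣ, (u : ZMod q) = p := by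
  have h1 : p.Coprime q := (hq.coprime_iff_not_dvd.mpr hpq).symm
  exact ⟨ZMod.unitOfCoprime p h1, ZMod.coe_unitOfCoprime p h1⟩

lemma order_pos (hq : q.Prime) (hpq : ¬ q ∣ p) : 0 < orderOf (p : ZMod q) := by
  obtain ⟨u, hu⟩ := unit_of hq hpq
  have hf : Fact q.Prime := ⟨hq⟩
  rw [← hu, orderOf_units]
  exact orderOf_pos u

lemma order_eq (_hq : q.Prime) (_hpq : ¬ q ∣ p) : orderOf (p : ZMod q) = 2 ^ ev p q * of p q :=
  (Nat.ordProj_mul_ordCompl_eq_self _ 2).symm

lemma of_odd (hq : q.Prime) (hpq : ¬ q ∣ p) : Odd (of p q) := by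
  rw [← Nat.not_even_iff_odd, even_iff_two_dvd]
  exact Nat.not_dvd_ordCompl Nat.prime_two (order_pos hq hpq).ne'

lemma real_root' (hq : q.Prime) (hpq : ¬ q ∣ p) (he : 1 ≤ ev p q) {ζ : ℂ}
    (h : ζ ^ 2 ^ ev p q = 1) (h1 : ζ ≠ 1) :
    ∀ [Fact q.Prime], Real p q ζ (ζ ^ 2 ^ (ev p q - 1)) := by
  intro _
  obtain ⟨u, hu⟩ := unit_of hq hpq
  obtain ⟨k, hk⟩ : ∃ k, ev p q = k + 1 := ⟨ev p q - 1, by omega⟩
  have hord : orderOf u = 2 ^ (k + 1) * of p q := by
    rw [← orderOf_units, hu, order_eq hq hpq, hk]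
  rw [hk, Nat.add_sub_cancel]
  exact real_root hu (of_odd hq hpq) hord (hk ▸ h) h1

/-- a nonsquare modulo a prime congruent to one modulo four has order divisible by four -/
lemma two_le_ev [Fact q.Prime] (hpq : ¬ q ∣ p) (hq4 : q % 4 = 1) (h : ¬ IsSquare (p : ZMod q)) :
    2 ≤ ev p q := by
  have hq : q.Prime := Fact.out
  by_contra hlt
  apply h
  have hf := of_odd hq hpq
  obtain ⟨t, ht⟩ := hf
  have h1 : ((p : ZMod q) ^ of p q) ^ 2 = 1 := by
    have h2 : (p : ZMod q) ^ orderOf (p : ZMod q) = 1 := pow_orderOf_eq_one _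
    rw [order_eq hq hpq] at h2
    have h3 : ev p q = 0 ∨ ev p q = 1 := by omega
    rcases h3 with h3 | h3
    · rw [h3, pow_zero, one_mul] at h2
      rw [h2]; norm_num
    · rw [h3, pow_one, mul_comm, pow_mul] at h2
      exact h2
  have hneg : IsSquare (-1 : ZMod q) := ZMod.exists_sq_eq_neg_one_iff.mpr (by omega)
  have h2 : IsSquare ((p : ZMod q) ^ of p q) := by
    rcases mul_self_eq_one_iff.mp ((sq _).symm.trans h1) with h3 | h3
    · rw [h3]; exact IsSquare.one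
    · rw [h3]; exact hneg
  have h3 : (p : ZMod q) ≠ 0 := fun h0 => hpq ((ZMod.natCast_eq_zero_iff _ _).mp h0)
  have h4 : (p : ZMod q) = (p : ZMod q) ^ of p q * (((p : ZMod q) ^ t)⁻¹ * ((p : ZMod q) ^ t)⁻¹) := by
    rw [ht]
    field_simp
    ring
  rw [h4]
  exact h2.mul ⟨_, rfl⟩

lemma qc_cases [Fact q.Prime] (hpq : ¬ q ∣ p) (hq4 : q % 4 = 1) :
    qc p q = 1 ∨ (qc p q = -1 ∧ 2 ≤ ev p q) := by
  have h3 : (p : ZMod q) ≠ 0 := fun h0 => hpq ((ZMod.natCast_eq_zero_iff _ _).mp h0)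
  rcases quadraticChar_dichotomy h3 with h | h
  · left; unfold qc; rw [h]; norm_num
  · right
    refine ⟨by unfold qc; rw [h]; norm_num, two_le_ev hpq hq4 ?_⟩
    exact quadraticChar_neg_one_iff_not_isSquare.mp h

lemma qc_square [Fact q.Prime] (hpq : ¬ q ∣ p) (h : IsSquare (p : ZMod q)) : qc p q = 1 := by
  have h3 : (p : ZMod q) ≠ 0 := fun h0 => hpq ((ZMod.natCast_eq_zero_iff _ _).mp h0)
  unfold qc
  rw [(quadraticChar_one_iff_isSquare h3).mpr h]; norm_num

lemma odd_prod {S : Finset ℕ} {f : ℕ → ℕ} (h : ∀ r ∈ S, Odd (f r)) : Odd (∏ r ∈ S, f r) :=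
  Finset.prod_induction _ Odd (fun _ _ => Odd.mul) odd_one h

lemma prod_neg_one {S : Finset ℕ} (hS : ∀ q ∈ S, q.Prime) {k : ℕ}
    (h : ∀ q ∈ S, (p : ZMod q) ^ k = -1) : (p : ZMod (∏ q ∈ S, q)) ^ k = -1 := by
  classical
  have key : (∏ q ∈ S, q) ∣ p ^ k + 1 := by
    refine Finset.prod_primes_dvd _ (fun q hq => (hS q hq).prime) (fun q hq => ?_)
    rw [← ZMod.natCast_eq_zero_iff]
    push_cast
    rw [h q hq]
    ring
  have h1 := (ZMod.natCast_eq_zero_iff _ _).mpr key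
  push_cast at h1
  linear_combination h1

/-- `-1` is a power of `p` modulo a product of primes if the exponents of two agree -/
lemma dead {S : Finset ℕ} (hS : ∀ q ∈ S, q.Prime ∧ ¬ q ∣ p) {e : ℕ}
    (he : ∀ q ∈ S, ev p q = e + 1) : ∃ k : ℕ, (p : ZMod (∏ q ∈ S, q)) ^ k = -1 := by
  classical
  refine ⟨2 ^ e * ∏ q ∈ S, of p q, prod_neg_one (fun q hq => (hS q hq).1) fun q hq => ?_⟩
  obtain ⟨hqp, hpq⟩ := hS q hq
  have hf : Fact q.Prime := ⟨hqp⟩
  obtain ⟨u, hu⟩ := unit_of hqp hpq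
  have hord : orderOf u = 2 * (2 ^ e * of p q) := by
    rw [← orderOf_units, hu, order_eq hqp hpq, he q hq, pow_succ]; ring
  have h1 : u ^ (2 ^ e * of p q) = -1 :=
    pow_half (Nat.mul_pos (by positivity) (of_odd hqp hpq).pos) hord
  have h2 : (p : ZMod q) ^ (2 ^ e * of p q) = -1 := by
    rw [← hu, ← Units.val_pow_eq_pow_val, h1]; simp
  have h3 : Odd (∏ r ∈ S.erase q, of p r) :=
    odd_prod fun r hr => of_odd (hS r (mem_of_mem_erase hr)).1 (hS r (mem_of_mem_erase hr)).2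
  rw [← mul_prod_erase S _ hq, ← mul_assoc, pow_mul, h2, h3.neg_one_pow]

/-- from values to characters -/
lemma assemble {m n : ℕ} (hR : ∃ ζ η : ℕ → ℂ, (∀ q ∈ n.primeFactors, Real p q (ζ q) (η q)) ∧
      ∏ q ∈ n.primeFactors, ζ q = 1 ∧ ∏ q ∈ n.primeFactors, η q = -1)
    (hk : ∀ j : ℕ, j.Prime → j ∣ m → ¬ j ∣ n → (j = 2 → 4 ∣ m) → ∃ c : ℕ,
      ∀ q ∈ n.primeFactors, Odd (orderOf ((p : ZMod q) ^ c * (j : ZMod q)))) : CharEven p m n := by
  classical
  obtain ⟨ζ, η, hR, hζ, hη⟩ := hR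
  have h : ∀ q, ∃ χ : MulChar (ZMod q) ℂ, q ∈ n.primeFactors →
      (Even (orderOf χ) ∧ χ (p : ZMod q) = ζ q ∧ χ (-1) = η q ∧
        ∀ x : (ZMod q)ˣ, Odd (orderOf x) → χ x = 1) := by
    intro q
    by_cases hq : q ∈ n.primeFactors
    · obtain ⟨χ, hχ⟩ := hR q hq
      exact ⟨χ, fun _ => hχ⟩
    · exact ⟨1, fun h => absurd h hq⟩
  choose χ hχ using h
  refine ⟨χ, fun q hq => (hχ q hq).1, ?_, ?_, ?_⟩
  · rw [← hη]; exact prod_congr rfl fun q hq => (hχ q hq).2.2.1
  · rw [← hζ]; exact prod_congr rfl fun q hq => (hχ q hq).2.1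
  · intro j hj hjm hjn hj2
    obtain ⟨c, hc⟩ := hk j hj hjm hjn hj2
    have h1 : ∏ q ∈ n.primeFactors, (ζ q ^ c * χ q (j : ZMod q)) = 1 := by
      refine prod_eq_one fun q hq => ?_
      have h2 := hc q hq
      have hpos : 0 < orderOf ((p : ZMod q) ^ c * (j : ZMod q)) := h2.pos
      have hu : IsUnit ((p : ZMod q) ^ c * (j : ZMod q)) :=
        IsUnit.of_pow_eq_one (pow_orderOf_eq_one _) hpos.ne'
      obtain ⟨x, hx⟩ := hu
      have h3 : χ q (x : ZMod q) = 1 := (hχ q hq).2.2.2 x (by rw [← orderOf_units, hx]; exact h2)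
      rw [hx, map_mul, map_pow, (hχ q hq).2.1] at h3
      exact h3
    rw [prod_mul_distrib, prod_pow, hζ, one_pow, one_mul] at h1
    exact h1

/-- The explicit degrees: `-1` is a power of `p` modulo every odd prime divisor of `m`; at most one
prime divisor of `m` is congruent to three modulo four, and if there is one, `p` is not a nonsquare
both modulo a prime divisor congruent to five and modulo one congruent to one modulo eight; for each
prime divisor `j` of `m` (two is disregarded if four does not divide `m`) either `-1` is a power of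
`p` modulo the product of the odd prime divisors of `m` different from `j`, or there is a `c` such
that `p ^ c * j` has odd order modulo each of them. -/
def Explicit (p m : ℕ) : Prop :=
  (∀ q : ℕ, q.Prime → Odd q → q ∣ m → ∃ k : ℕ, (p : ZMod q) ^ k = -1) ∧
  (∀ q r : ℕ, q.Prime → r.Prime → q ∣ m → r ∣ m → q % 4 = 3 → r % 4 = 3 → q = r) ∧
  (∀ r s t : ℕ, r.Prime → s.Prime → t.Prime → r ∣ m → s ∣ m → t ∣ m →
    r % 4 = 3 → s % 8 = 5 → t % 8 = 1 → IsSquare (p : ZMod s) ∨ IsSquare (p : ZMod t)) ∧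
  ∀ j : ℕ, j.Prime → j ∣ m → (j = 2 → 4 ∣ m) →
    (∃ k : ℕ, ∀ q : ℕ, q.Prime → Odd q → q ∣ m → q ≠ j → (p : ZMod q) ^ k = -1) ∨
    ∃ c : ℕ, ∀ q : ℕ, q.Prime → Odd q → q ∣ m → q ≠ j →
      Odd (orderOf ((p : ZMod q) ^ c * (j : ZMod q)))

/-- an element with `-1` among its powers has even order -/
lemma ev_pos [Fact q.Prime] (hpq : ¬ q ∣ p) (hq2 : q ≠ 2) {k : ℕ} (h : (p : ZMod q) ^ k = -1) :
    1 ≤ ev p q := by
  have hq : q.Prime := Fact.out
  by_contra hlt
  have h0 : ev p q = 0 := by omega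
  have hord := order_eq hq hpq
  rw [h0, pow_zero, one_mul] at hord
  have hodd : Odd (orderOf (p : ZMod q)) := hord ▸ of_odd hq hpq
  have h1 : ((p : ZMod q) ^ k) ^ orderOf (p : ZMod q) = 1 := by
    rw [← pow_mul, mul_comm, pow_mul, pow_orderOf_eq_one, one_pow]
  rw [h, hodd.neg_one_pow] at h1
  have hc : Fact (2 < q) := ⟨lt_of_le_of_ne hq.two_le (Ne.symm hq2)⟩
  exact ZMod.neg_one_ne_one h1

lemma two_pow_dvd [Fact q.Prime] (hpq : ¬ q ∣ p) : 2 ^ ev p q * of p q ∣ q - 1 := by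
  have hq : q.Prime := Fact.out
  rw [← order_eq hq hpq]
  have h3 : (p : ZMod q) ≠ 0 := fun h0 => hpq ((ZMod.natCast_eq_zero_iff _ _).mp h0)
  exact orderOf_dvd_of_pow_eq_one (ZMod.pow_card_sub_one_eq_one h3)

lemma mod_of_le [Fact q.Prime] (hpq : ¬ q ∣ p) {k : ℕ} (h : k ≤ ev p q) : q % 2 ^ k = 1 % 2 ^ k := by
  have hq : q.Prime := Fact.out
  have h1 : 2 ^ k ∣ q - 1 := (pow_dvd_pow 2 h).trans ((Dvd.intro _ rfl).trans (two_pow_dvd hpq))
  exact ((Nat.modEq_iff_dvd' hq.one_lt.le).mpr h1).symm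

/-- a nonsquare whose order is not divisible by eight -/
lemma mod_eight [Fact q.Prime] (hpq : ¬ q ∣ p) (h4 : q % 4 = 1) (he : ev p q = 2)
    (h : ¬ IsSquare (p : ZMod q)) : q % 8 = 5 := by
  have hq : q.Prime := Fact.out
  by_contra h5
  have h1 : q % 8 = 1 := by omega
  apply h
  have h3 : (p : ZMod q) ≠ 0 := fun h0 => hpq ((ZMod.natCast_eq_zero_iff _ _).mp h0)
  rw [ZMod.euler_criterion q h3]
  obtain ⟨w, hw⟩ : ∃ w, q = 8 * w + 1 := ⟨q / 8, by omega⟩
  have hd := two_pow_dvd hpq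
  rw [he] at hd
  have hf := of_odd hq hpq
  have h6 : of p q ∣ 8 * w := by
    have h7 : of p q ∣ q - 1 := (Dvd.intro_left _ rfl).trans hd
    rwa [show q - 1 = 8 * w by omega] at h7
  have h7 : of p q ∣ w := by
    refine Nat.Coprime.dvd_of_dvd_mul_left ?_ h6
    have h8 : Nat.Coprime (of p q) (2 ^ 3) := Nat.Coprime.pow_right _ (Nat.coprime_two_right.mpr hf)
    exact h8
  obtain ⟨w', hw'⟩ := h7
  have h8 : q / 2 = orderOf (p : ZMod q) * w' := by
    rw [order_eq hq hpq, he]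
    have h9 : q / 2 = 4 * w := by omega
    rw [h9]
    calc 4 * w = 4 * (of p q * w') := by rw [← hw']
      _ = 2 ^ 2 * of p q * w' := by ring
  rw [h8, pow_mul, pow_orderOf_eq_one, one_pow]

theorem crit_of_explicit {m : ℕ} (hpm : p.Coprime m) (H : Explicit p m) :
    ∀ n : ℕ, Squarefree n → Odd n → 1 < n → n ∣ m →
      (∃ k : ℕ, (p : ZMod n) ^ k = -1) ∨ CharEven p m n := by
  classical
  obtain ⟨hpow, hone, hthree, hk⟩ := H
  intro n hsq hodd hn1 hnm
  by_cases hdn : ∃ k : ℕ, (p : ZMod n) ^ k = -1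
  · exact Or.inl hdn
  right
  have hpf : ∀ q ∈ n.primeFactors, q.Prime ∧ Odd q ∧ q ∣ m ∧ ¬ q ∣ p ∧ q ≠ 2 := by
    intro q hq
    have hqp := Nat.prime_of_mem_primeFactors hq
    have hqn := Nat.dvd_of_mem_primeFactors hq
    have hqo : Odd q := Odd.of_dvd_nat hodd hqn
    refine ⟨hqp, hqo, hqn.trans hnm, ?_, ?_⟩
    · intro h
      have h1 := Nat.dvd_gcd h (hqn.trans hnm)
      rw [hpm.gcd_eq_one] at h1
      exact hqp.one_lt.ne' (Nat.dvd_one.mp h1)
    · rintro rfl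
      exact absurd hqo (by decide)
  have hkk : ∀ j : ℕ, j.Prime → j ∣ m → ¬ j ∣ n → (j = 2 → 4 ∣ m) → ∃ c : ℕ,
      ∀ q ∈ n.primeFactors, Odd (orderOf ((p : ZMod q) ^ c * (j : ZMod q))) := by
    intro j hj hjm hjn hj2
    have hqj : ∀ q ∈ n.primeFactors, q ≠ j := by
      rintro q hq rfl
      exact hjn (Nat.dvd_of_mem_primeFactors hq)
    rcases hk j hj hjm hj2 with ⟨k, hk⟩ | ⟨c, hc⟩
    · exfalso
      apply hdn
      refine ⟨k, ?_⟩
      have h1 := prod_neg_one (p := p) (S := n.primeFactors) (fun q hq => (hpf q hq).1) (k := k)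
        (fun q hq => by
          obtain ⟨a1, a2, a3, _, _⟩ := hpf q hq
          exact hk q a1 a2 a3 (hqj q hq))
      rwa [Nat.prod_primeFactors_of_squarefree hsq] at h1
    · refine ⟨c, fun q hq => ?_⟩
      obtain ⟨a1, a2, a3, _, _⟩ := hpf q hq
      exact hc q a1 a2 a3 (hqj q hq)
  have hpos : ∀ q ∈ n.primeFactors, 1 ≤ ev p q := by
    intro q hq
    obtain ⟨a1, a2, a3, a4, a5⟩ := hpf q hq
    have hf : Fact q.Prime := ⟨a1⟩
    obtain ⟨k, hk⟩ := hpow q a1 a2 a3
    exact ev_pos a4 a5 hk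
  have hnotall : ∀ e : ℕ, ¬ ∀ q ∈ n.primeFactors, ev p q = e + 1 := by
    intro e he
    apply hdn
    have h1 := dead (p := p) (S := n.primeFactors) (fun q hq => ⟨(hpf q hq).1, (hpf q hq).2.2.2.1⟩) he
    rwa [Nat.prod_primeFactors_of_squarefree hsq] at h1
  set ε : ℕ → ℂ := fun q => if h : q.Prime then @qc p q ⟨h⟩ else 1 with hε
  have hεq : ∀ q (h : q.Prime), ε q = @qc p q ⟨h⟩ := fun q h => dif_pos h
  have hleg : ∀ q ∈ n.primeFactors, q % 4 = 1 → Real p q (ε q) 1 := by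
    intro q hq h4
    have hf : Fact q.Prime := ⟨(hpf q hq).1⟩
    rw [hεq q (hpf q hq).1]
    exact real_leg h4
  have hcases : ∀ q ∈ n.primeFactors, q % 4 = 1 → ε q = 1 ∨ (ε q = -1 ∧ 2 ≤ ev p q) := by
    intro q hq h4
    have hf : Fact q.Prime := ⟨(hpf q hq).1⟩
    rw [hεq q (hpf q hq).1]
    exact qc_cases (hpf q hq).2.2.2.1 h4
  have hroot : ∀ q ∈ n.primeFactors, ∀ ζ : ℂ, ζ ^ 2 ^ ev p q = 1 → ζ ≠ 1 →
      Real p q ζ (ζ ^ 2 ^ (ev p q - 1)) := by
    intro q hq ζ h1 h2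
    have hf : Fact q.Prime := ⟨(hpf q hq).1⟩
    exact real_root' (hpf q hq).1 (hpf q hq).2.2.2.1 (hpos q hq) h1 h2
  refine assemble ?_ hkk
  by_cases h3 : ∃ r ∈ n.primeFactors, r % 4 = 3
  · obtain ⟨r, hr, hr3⟩ := h3
    obtain ⟨a1, a2, a3, a4, a5⟩ := hpf r hr
    have hfr : Fact r.Prime := ⟨a1⟩
    have her : ev p r = 1 := by
      by_contra hne
      have h1 : 2 ≤ ev p r := by have := hpos r hr; omega
      have h2 := mod_of_le a4 h1
      omega
    have hT4 : ∀ q ∈ n.primeFactors.erase r, q % 4 = 1 := by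
      intro q hq
      obtain ⟨b1, b2, b3, b4, b5⟩ := hpf q (mem_of_mem_erase hq)
      by_contra hne
      have h1 : q % 4 = 3 := by
        obtain ⟨w, hw⟩ := b2
        omega
      exact ne_of_mem_erase hq (hone q r b1 a1 b3 a3 h1 hr3)
    obtain ⟨ζ, η, hζη, hζ, hη⟩ := select3 (T := n.primeFactors.erase r)
      (fun q ζ η => Real p q ζ η) (ev p) ε (fun q hq => hroot q (mem_of_mem_erase hq))
      (fun q hq => hleg q (mem_of_mem_erase hq) (hT4 q hq))
      (fun q hq => hcases q (mem_of_mem_erase hq) (hT4 q hq)) (by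
        by_contra hcon
        push Not at hcon
        apply hnotall 0
        intro q hq
        by_cases hqr : q = r
        · rw [hqr, her]
        · have h1 := hcon q (mem_erase.mpr ⟨hqr, hq⟩)
          have h2 := hpos q hq
          omega) (by
        intro s hs t ht hεs hεt hs2
        by_contra hcon
        obtain ⟨b1, b2, b3, b4, b5⟩ := hpf s (mem_of_mem_erase hs)
        obtain ⟨c1, c2, c3, c4, c5⟩ := hpf t (mem_of_mem_erase ht)
        have hfs : Fact s.Prime := ⟨b1⟩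
        have hft : Fact t.Prime := ⟨c1⟩
        rw [hεq s b1] at hεs
        rw [hεq t c1] at hεt
        have hns : ¬ IsSquare (p : ZMod s) := by
          intro h
          rw [qc_square b4 h] at hεs
          norm_num at hεs
        have hnt : ¬ IsSquare (p : ZMod t) := by
          intro h
          rw [qc_square c4 h] at hεt
          norm_num at hεt
        have ht8 : t % 8 = 1 := by
          have h1 := mod_of_le (k := 3) c4 (by omega)
          omega
        rcases hthree r s t a1 b1 c1 a3 b3 c3 hr3 (mod_eight b4 (hT4 s hs) hs2 hns) ht8 with h | h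
        · exact hns h
        · exact hnt h)
    refine ⟨fun q => if q = r then -1 else ζ q, fun q => if q = r then -1 else η q, ?_, ?_, ?_⟩
    · intro q hq
      by_cases hqr : q = r
      · subst hqr
        have h1 := hroot q hq (-1) (by rw [her]; norm_num) (by norm_num)
        rw [her] at h1
        simpa using h1
      · simpa [hqr] using hζη q (mem_erase.mpr ⟨hqr, hq⟩)
    · rw [← mul_prod_erase _ _ hr, if_pos rfl]
      have h1 : ∏ q ∈ n.primeFactors.erase r, (if q = r then (-1 : ℂ) else ζ q) =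
          ∏ q ∈ n.primeFactors.erase r, ζ q :=
        prod_congr rfl fun q hq => if_neg (ne_of_mem_erase hq)
      rw [h1, hζ]; norm_num
    · rw [← mul_prod_erase _ _ hr, if_pos rfl]
      have h1 : ∏ q ∈ n.primeFactors.erase r, (if q = r then (-1 : ℂ) else η q) =
          ∏ q ∈ n.primeFactors.erase r, η q :=
        prod_congr rfl fun q hq => if_neg (ne_of_mem_erase hq)
      rw [h1, hη]; norm_num
  · push Not at h3
    have h4 : ∀ q ∈ n.primeFactors, q % 4 = 1 := by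
      intro q hq
      have h1 := h3 q hq
      obtain ⟨w, hw⟩ := (hpf q hq).2.1
      omega
    refine select (fun q ζ η => Real p q ζ η) (ev p) ε hroot (fun q hq => hleg q hq (h4 q hq))
      (fun q hq => hcases q hq (h4 q hq)) hpos ?_
    by_contra hcon
    push Not at hcon
    obtain ⟨r, hr⟩ : n.primeFactors.Nonempty := Nat.nonempty_primeFactors.mpr hn1
    obtain ⟨e, he⟩ : ∃ e, ev p r = e + 1 := ⟨ev p r - 1, by have := hpos r hr; omega⟩
    apply hnotall e
    intro q hq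
    have h5 := hcon r hr q hq
    have h6 := hcon q hq r hr
    omega

end Pool.Agent.D0H5.Fermat
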