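import Pool.Agent.D0H5.Fermat.Char

/-!
# Choosing the characters
-/

namespace Pool.Agent.D0H5.Fermat

open Finset

lemma prod_pm {S : Finset ℕ} {ε : ℕ → ℂ} (h : ∀ q ∈ S, ε q = 1 ∨ ε q = -1) :
    ∏ q ∈ S, ε q = 1 ∨ ∏ q ∈ S, ε q = -1 := by
  classical
  induction S using Finset.induction_on with
  | empty => left; simp
  | insert a S ha ih =>
    rw [prod_insert ha]
    rcases h a (mem_insert_self _ _) with h1 | h1 <;>
      rcases ih (fun q hq => h q (mem_insert_of_mem hq)) with h2 | h2 <;> rw [h1, h2] <;> simp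

/-- the choice of the values -/
lemma select {S : Finset ℕ} (R : ℕ → ℂ → ℂ → Prop) (e : ℕ → ℕ) (ε : ℕ → ℂ)
    (hroot : ∀ q ∈ S, ∀ ζ : ℂ, ζ ^ 2 ^ e q = 1 → ζ ≠ 1 → R q ζ (ζ ^ 2 ^ (e q - 1)))
    (hleg : ∀ q ∈ S, R q (ε q) 1) (hε : ∀ q ∈ S, ε q = 1 ∨ (ε q = -1 ∧ 2 ≤ e q))
    (he : ∀ q ∈ S, 1 ≤ e q) (hne : ∃ r ∈ S, ∃ s ∈ S, e r < e s) :
    ∃ ζ η : ℕ → ℂ, (∀ q ∈ S, R q (ζ q) (η q)) ∧ ∏ q ∈ S, ζ q = 1 ∧ ∏ q ∈ S, η q = -1 := by
  classical
  have hpm : ∀ q ∈ S, ε q = 1 ∨ ε q = -1 := fun q hq => (hε q hq).imp id And.left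
  by_cases hA : ∃ r ∈ S, ∃ s ∈ S, e r < e s ∧
      ¬ (e r = 1 ∧ ∏ q ∈ (S.erase r).erase s, ε q = -1 ∧ ε s = -1)
  · obtain ⟨r, hr, s, hs, hrs, hnot⟩ := hA
    have hsr : s ≠ r := by rintro rfl; exact lt_irrefl _ hrs
    have hs' : s ∈ S.erase r := mem_erase.mpr ⟨hsr, hs⟩
    set c := ∏ q ∈ (S.erase r).erase s, ε q with hc
    have hc1 : c = 1 ∨ c = -1 := prod_pm fun q hq => hpm q (mem_of_mem_erase (mem_of_mem_erase hq))
    have hcc : c * c = 1 := by rcases hc1 with h | h <;> rw [h] <;> norm_num
    obtain ⟨x, hx⟩ := IsAlgClosed.exists_pow_nat_eq (-1 : ℂ) (n := 2 ^ (e r - 1)) (by positivity)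
    have her := he r hr
    have hx0 : x ≠ 0 := by
      rintro rfl
      rw [zero_pow (by positivity)] at hx
      norm_num at hx
    have hx2 : x ^ 2 ^ e r = 1 := by
      obtain ⟨k, hk⟩ : ∃ k, e r = k + 1 := ⟨e r - 1, by omega⟩
      rw [hk, pow_succ, pow_mul]
      rw [hk, Nat.add_sub_cancel] at hx
      rw [hx]; norm_num
    have hx1 : x ≠ 1 := by
      rintro rfl
      rw [one_pow] at hx
      norm_num at hx
    set y := c * x⁻¹ with hy
    have hy1 : y ^ 2 ^ (e s - 1) = 1 := by
      obtain ⟨k, hk⟩ : ∃ k, e s - 1 = e r + k := ⟨e s - 1 - e r, by omega⟩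
      obtain ⟨k', hk'⟩ : ∃ k', e r + k = k' + 1 := ⟨e r + k - 1, by omega⟩
      have h1 : x ^ 2 ^ (e s - 1) = 1 := by rw [hk, pow_add, pow_mul, hx2, one_pow]
      have h2 : c ^ 2 ^ (e s - 1) = 1 := by
        rw [hk, hk', pow_succ, mul_comm, pow_mul, sq, hcc, one_pow]
      rw [hy, mul_pow, inv_pow, h1, h2]; norm_num
    have hy2 : y ^ 2 ^ e s = 1 := by
      obtain ⟨k, hk⟩ : ∃ k, e s = (e s - 1) + 1 := ⟨0, by omega⟩
      rw [hk, pow_succ, pow_mul, hy1, one_pow]
    have hRs : R s y 1 := by
      by_cases hy3 : y = 1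
      · have hxc : c = x := by
          have h1 : c * x⁻¹ = 1 := hy3
          field_simp at h1
          exact h1
        have hc2 : c = -1 := by
          rcases hc1 with h | h
          · exact absurd (hxc.symm.trans h) hx1
          · exact h
        have her1 : e r = 1 := by
          by_contra hne1
          obtain ⟨k, hk⟩ : ∃ k, e r - 1 = k + 1 := ⟨e r - 2, by omega⟩
          rw [← hxc, hc2, hk, pow_succ, mul_comm, pow_mul] at hx
          norm_num at hx
        have hεs : ε s = 1 := by
          rcases hpm s hs with h | h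
          · exact h
          · exact absurd ⟨her1, hc2, h⟩ hnot
        have h1 := hleg s hs
        rw [hεs] at h1
        rw [hy3]
        exact h1
      · have h1 := hroot s hs y hy2 hy3
        rwa [hy1] at h1
    have hRr : R r x (-1) := by
      have h1 := hroot r hr x hx2 hx1
      rwa [hx] at h1
    refine ⟨fun q => if q = r then x else if q = s then y else ε q,
      fun q => if q = r then -1 else 1, ?_, ?_, ?_⟩
    · intro q hq
      by_cases h1 : q = r
      · subst h1; simpa using hRr
      · by_cases h2 : q = s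
        · subst h2; simpa [h1] using hRs
        · simpa [h1, h2] using hleg q hq
    · rw [← mul_prod_erase S _ hr, ← mul_prod_erase (S.erase r) _ hs']
      have h1 : ∏ q ∈ (S.erase r).erase s, (if q = r then x else if q = s then y else ε q) = c := by
        refine prod_congr rfl fun q hq => ?_
        have h2 := ne_of_mem_erase hq
        have h3 := ne_of_mem_erase (mem_of_mem_erase hq)
        rw [if_neg h3, if_neg h2]
      rw [h1, if_pos rfl, if_neg hsr, if_pos rfl, hy]
      have : x * (c * x⁻¹ * c) = (c * c) * (x * x⁻¹) := by ring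
      rw [this, hcc, mul_inv_cancel₀ hx0, one_mul]
    · rw [← mul_prod_erase S _ hr, if_pos rfl, prod_eq_one, mul_one]
      intro q hq
      rw [if_neg (ne_of_mem_erase hq)]
  · push Not at hA
    obtain ⟨r, hr, s, hs, hrs⟩ := hne
    obtain ⟨her, hcr, hεs⟩ := hA r hr s hs hrs
    have hsr : s ≠ r := by rintro rfl; exact lt_irrefl _ hrs
    have hs' : s ∈ S.erase r := mem_erase.mpr ⟨hsr, hs⟩
    obtain ⟨t, ht, hεt⟩ : ∃ t ∈ (S.erase r).erase s, ε t = -1 := by
      by_contra hcon
      push Not at hcon
      rw [prod_eq_one (fun q hq => by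
        rcases hpm q (mem_of_mem_erase (mem_of_mem_erase hq)) with h | h
        · exact h
        · exact absurd h (hcon q hq))] at hcr
      norm_num at hcr
    have hts := ne_of_mem_erase ht
    have htr := ne_of_mem_erase (mem_of_mem_erase ht)
    have htS := mem_of_mem_erase (mem_of_mem_erase ht)
    have het : 2 ≤ e t := by
      rcases hε t htS with h | h
      · rw [h] at hεt; norm_num at hεt
      · exact h.2
    have hes : e s = e t := by
      rcases lt_trichotomy (e s) (e t) with h | h | h
      · have := (hA s hs t htS h).1; omega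
      · exact h
      · have := (hA t htS s hs h).1; omega
    set c' := ∏ q ∈ ((S.erase r).erase s).erase t, ε q with hc'
    have hc'1 : c' = 1 := by
      have h1 := mul_prod_erase ((S.erase r).erase s) ε ht
      rw [hcr, hεt, ← hc'] at h1
      linear_combination -h1
    have hI : ∀ k, 2 ≤ k → Complex.I ^ 2 ^ k = 1 := by
      intro k hk
      obtain ⟨l, rfl⟩ : ∃ l, k = 2 + l := ⟨k - 2, by omega⟩
      rw [pow_add, pow_mul]
      norm_num
    have hI1 : Complex.I ≠ 1 := by
      intro h
      have := congrArg Complex.im h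
      norm_num at this
    set z := Complex.I ^ 2 ^ (e t - 1) with hz
    have hzz : z * z = 1 := by
      rw [hz, ← pow_add]
      obtain ⟨l, hl⟩ : ∃ l, e t - 1 = l + 1 := ⟨e t - 2, by omega⟩
      rw [hl, ← two_mul, ← pow_succ']
      exact hI _ (by omega)
    have hRr : R r (-1) (-1) := by
      have h1 := hroot r hr (-1) (by rw [her]; norm_num) (by norm_num)
      rw [her] at h1
      norm_num at h1
      exact h1
    have hRt : R t Complex.I z := hroot t htS _ (hI _ het) hI1
    have hRs : R s Complex.I z := by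
      have h1 := hroot s hs Complex.I (hI _ (by omega)) hI1
      rwa [hes] at h1
    refine ⟨fun q => if q = r then -1 else if q = s then Complex.I else if q = t then Complex.I
      else ε q, fun q => if q = r then -1 else if q = s then z else if q = t then z else 1, ?_, ?_, ?_⟩
    · intro q hq
      by_cases h1 : q = r
      · subst h1; simpa using hRr
      · by_cases h2 : q = s
        · subst h2; simpa [h1] using hRs
        · by_cases h3 : q = t
          · subst h3; simpa [h1, h2] using hRt
          · simpa [h1, h2, h3] using hleg q hq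
    · rw [← mul_prod_erase S _ hr, ← mul_prod_erase (S.erase r) _ hs',
        ← mul_prod_erase ((S.erase r).erase s) _ ht]
      have h1 : ∏ q ∈ ((S.erase r).erase s).erase t, (if q = r then (-1 : ℂ) else
          if q = s then Complex.I else if q = t then Complex.I else ε q) = c' := by
        refine prod_congr rfl fun q hq => ?_
        have h2 := ne_of_mem_erase hq
        have h3 := ne_of_mem_erase (mem_of_mem_erase hq)
        have h4 := ne_of_mem_erase (mem_of_mem_erase (mem_of_mem_erase hq))
        rw [if_neg h4, if_neg h3, if_neg h2]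
      rw [h1, if_pos rfl, if_neg hsr, if_pos rfl, if_neg htr, if_neg hts, if_pos rfl, hc'1]
      have : (-1 : ℂ) * (Complex.I * (Complex.I * 1)) = -(Complex.I * Complex.I) := by ring
      rw [this, Complex.I_mul_I]; norm_num
    · rw [← mul_prod_erase S _ hr, ← mul_prod_erase (S.erase r) _ hs',
        ← mul_prod_erase ((S.erase r).erase s) _ ht]
      have h1 : ∏ q ∈ ((S.erase r).erase s).erase t, (if q = r then (-1 : ℂ) else
          if q = s then z else if q = t then z else 1) = 1 := by
        refine prod_eq_one fun q hq => ?_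
        have h2 := ne_of_mem_erase hq
        have h3 := ne_of_mem_erase (mem_of_mem_erase hq)
        have h4 := ne_of_mem_erase (mem_of_mem_erase (mem_of_mem_erase hq))
        rw [if_neg h4, if_neg h3, if_neg h2]
      rw [h1, if_pos rfl, if_neg hsr, if_pos rfl, if_neg htr, if_neg hts, if_pos rfl]
      have : (-1 : ℂ) * (z * (z * 1)) = -(z * z) := by ring
      rw [this, hzz]

/-- the choice of the values, with one more prime whose values are `-1`, `-1` -/
lemma select3 {T : Finset ℕ} (R : ℕ → ℂ → ℂ → Prop) (e : ℕ → ℕ) (ε : ℕ → ℂ)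
    (hroot : ∀ q ∈ T, ∀ ζ : ℂ, ζ ^ 2 ^ e q = 1 → ζ ≠ 1 → R q ζ (ζ ^ 2 ^ (e q - 1)))
    (hleg : ∀ q ∈ T, R q (ε q) 1) (hε : ∀ q ∈ T, ε q = 1 ∨ (ε q = -1 ∧ 2 ≤ e q))
    (hne : ∃ s ∈ T, 2 ≤ e s)
    (hex : ∀ s ∈ T, ∀ t ∈ T, ε s = -1 → ε t = -1 → e s = 2 → e t < 3) :
    ∃ ζ η : ℕ → ℂ, (∀ q ∈ T, R q (ζ q) (η q)) ∧ ∏ q ∈ T, ζ q = -1 ∧ ∏ q ∈ T, η q = 1 := by
  classical
  have hpm : ∀ q ∈ T, ε q = 1 ∨ ε q = -1 := fun q hq => (hε q hq).imp id And.left
  rcases prod_pm hpm with hc | hc
  · -- the product is one
    by_cases hA : ∃ s ∈ T, ε s = 1 ∧ 2 ≤ e s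
    · obtain ⟨s, hs, hs1, hs2⟩ := hA
      have hz : (-1 : ℂ) ^ 2 ^ (e s - 1) = 1 := by
        obtain ⟨k, hk⟩ : ∃ k, e s - 1 = k + 1 := ⟨e s - 2, by omega⟩
        rw [hk, pow_succ, mul_comm, pow_mul]; norm_num
      have hz' : (-1 : ℂ) ^ 2 ^ e s = 1 := by
        obtain ⟨k, hk⟩ : ∃ k, e s = k + 1 := ⟨e s - 1, by omega⟩
        rw [hk, pow_succ, mul_comm, pow_mul]; norm_num
      have hRs : R s (-1) 1 := by
        have h1 := hroot s hs (-1) hz' (by norm_num)
        rwa [hz] at h1
      refine ⟨fun q => if q = s then -1 else ε q, fun _ => 1, ?_, ?_, prod_const_one⟩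
      · intro q hq
        by_cases h1 : q = s
        · subst h1; simpa using hRs
        · simpa [h1] using hleg q hq
      · have h1 := mul_prod_erase T ε hs
        rw [hc, hs1, one_mul] at h1
        rw [← mul_prod_erase T _ hs, if_pos rfl]
        have h2 : ∏ q ∈ T.erase s, (if q = s then (-1 : ℂ) else ε q) = ∏ q ∈ T.erase s, ε q :=
          prod_congr rfl fun q hq => if_neg (ne_of_mem_erase hq)
        rw [h2, h1]; norm_num
    · push Not at hA
      obtain ⟨s, hs, hs2⟩ := hne
      have hεs : ε s = -1 := by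
        rcases hpm s hs with h | h
        · have := hA s hs h; omega
        · exact h
      obtain ⟨t, ht, hεt⟩ : ∃ t ∈ T.erase s, ε t = -1 := by
        by_contra hcon
        push Not at hcon
        have h1 := mul_prod_erase T ε hs
        rw [prod_eq_one (fun q hq => by
          rcases hpm q (mem_of_mem_erase hq) with h | h
          · exact h
          · exact absurd h (hcon q hq)), hc, hεs] at h1
        norm_num at h1
      have hts := ne_of_mem_erase ht
      have htT := mem_of_mem_erase ht
      have ht2 : 2 ≤ e t := by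
        rcases hε t htT with h | h
        · rw [h] at hεt; norm_num at hεt
        · exact h.2
      -- the two values of `I`
      have hI : ∀ k, 2 ≤ k → Complex.I ^ 2 ^ k = 1 := by
        intro k hk
        obtain ⟨l, rfl⟩ : ∃ l, k = 2 + l := ⟨k - 2, by omega⟩
        rw [pow_add, pow_mul]
        norm_num
      have hI1 : Complex.I ≠ 1 := by
        intro h
        have := congrArg Complex.im h
        norm_num at this
      have hst : Complex.I ^ 2 ^ (e s - 1) * Complex.I ^ 2 ^ (e t - 1) = 1 := by
        have h1 := hex s hs t htT hεs hεt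
        have h2 := hex t htT s hs hεt hεs
        by_cases h3 : e s = 2
        · have h4 := h1 h3
          have h5 : e t = 2 := by omega
          rw [h3, h5]; norm_num
        · have h5 : e t ≠ 2 := fun h => by have := h2 h; omega
          rw [hI _ (by omega), hI _ (by omega), one_mul]
      refine ⟨fun q => if q = s then Complex.I else if q = t then Complex.I else ε q,
        fun q => if q = s then Complex.I ^ 2 ^ (e s - 1) else
          if q = t then Complex.I ^ 2 ^ (e t - 1) else 1, ?_, ?_, ?_⟩
      · intro q hq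
        by_cases h2 : q = s
        · subst h2; simpa using hroot q hq _ (hI _ hs2) hI1
        · by_cases h3 : q = t
          · subst h3; simpa [h2] using hroot q hq _ (hI _ ht2) hI1
          · simpa [h2, h3] using hleg q hq
      · have h1 := mul_prod_erase T ε hs
        rw [← mul_prod_erase (T.erase s) ε ht, hc, hεs, hεt] at h1
        rw [← mul_prod_erase T _ hs, ← mul_prod_erase (T.erase s) _ ht, if_pos rfl, if_neg hts,
          if_pos rfl]
        have h2 : ∏ q ∈ (T.erase s).erase t, (if q = s then Complex.I else if q = t then Complex.I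
            else ε q) = ∏ q ∈ (T.erase s).erase t, ε q := by
          refine prod_congr rfl fun q hq => ?_
          rw [if_neg (ne_of_mem_erase (mem_of_mem_erase hq)), if_neg (ne_of_mem_erase hq)]
        rw [h2]
        have h3 : ∏ q ∈ (T.erase s).erase t, ε q = 1 := by linear_combination h1
        rw [h3, mul_one, Complex.I_mul_I]
      · rw [← mul_prod_erase T _ hs, ← mul_prod_erase (T.erase s) _ ht, if_pos rfl, if_neg hts,
          if_pos rfl, prod_eq_one, mul_one, hst]
        intro q hq
        rw [if_neg (ne_of_mem_erase (mem_of_mem_erase hq)), if_neg (ne_of_mem_erase hq)]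
  · exact ⟨ε, fun _ => 1, hleg, hc, prod_const_one⟩

end Pool.Agent.D0H5.Fermat
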